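import Pool.Agent.Lib.MP_a60229_an.MainC

set_option autoImplicit false
universe u

open Pool.Agent.Lib.MP_a60229_an

namespace Pool.Agent.Results.MP_a60229_an.AlmostGenerated

/-- Every polyhedral Banach space `E` has, for all `R > 0` and `0 < ε < 1`, a polyhedral renorming
`X` at distance at most `1 + R` from `E` whose closed unit ball, scaled by `1 - ε`, is contained
in the closed convex hull of the extreme points of the closed unit ball. -/
theorem result :
    ∀ (E : Type u) [NormedAddCommGroup E] [NormedSpace ℝ E] [CompleteSpace E],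
      (∀ F : Submodule ℝ E, FiniteDimensional ℝ F →
        (Set.extremePoints ℝ (Metric.closedBall (0 : E) 1 ∩ (F : Set E))).Finite) →
      ∀ R : ℝ, 0 < R → ∀ ε : ℝ, 0 < ε → ε < 1 →
      ∃ (X : Type u) (_ : NormedAddCommGroup X) (_ : NormedSpace ℝ X),
        ∃ T : E ≃L[ℝ] X,
          (∀ x : E, ‖T x‖ ≤ ‖x‖ ∧ ‖x‖ ≤ (1 + R) * ‖T x‖) ∧
          (∀ G : Submodule ℝ X, FiniteDimensional ℝ G →
            (Set.extremePoints ℝ (Metric.closedBall (0 : X) 1 ∩ (G : Set X))).Finite) ∧
          ∀ x ∈ Metric.closedBall (0 : X) 1, (1 - ε) • x ∈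
            closure (convexHull ℝ (Set.extremePoints ℝ (Metric.closedBall (0 : X) 1))) := by
  intro E _ _ _ hE R hR ε hε hε1
  have hE' : IsPolyhedral E := hE
  obtain ⟨X, i1, i2, T, hT, hp, hg⟩ := hE'.exists_almost hR hε hε1
  exact ⟨X, i1, i2, T, hT, hp, hg⟩

end Pool.Agent.Results.MP_a60229_an.AlmostGenerated
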