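import Pool.Agent.Lib.MP_a60229_an.MainC

set_option autoImplicit false
universe u

open Pool.Agent.Lib.MP_a60229_an

namespace Pool.Agent.Results.MP_a60229_an.DiscreteFacets

/-- Let `E` be a Banach space isomorphic (via `S`) to a polyhedral space `E'` in which any
functional that coincides with the norm on a nonempty open set is isolated, in the dual norm, from
the other functionals of this kind.  Then for every `R > 0` the space `E` is isomorphic to a
polyhedral space `X` whose closed unit ball is the closed convex hull of its extreme points, with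
a norm that differs from the norm of `E'` by a factor at most `1 + R`. -/
theorem result :
    ∀ (E : Type u) [NormedAddCommGroup E] [NormedSpace ℝ E] [CompleteSpace E]
      (E' : Type u) [NormedAddCommGroup E'] [NormedSpace ℝ E'] (S : E ≃L[ℝ] E'),
      (∀ F : Submodule ℝ E', FiniteDimensional ℝ F →
        (Set.extremePoints ℝ (Metric.closedBall (0 : E') 1 ∩ (F : Set E'))).Finite) →
      (∀ (f : E' →L[ℝ] ℝ) (z : E') (ρ : ℝ), 0 < ρ → (∀ w : E', ‖w - z‖ < ρ → ‖w‖ = f w) →
        ∃ r : ℝ, 0 < r ∧ ∀ (f' : E' →L[ℝ] ℝ) (z' : E') (ρ' : ℝ), 0 < ρ' →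
          (∀ w : E', ‖w - z'‖ < ρ' → ‖w‖ = f' w) → f' ≠ f → r ≤ ‖f' - f‖) →
      ∀ R : ℝ, 0 < R →
      ∃ (X : Type u) (_ : NormedAddCommGroup X) (_ : NormedSpace ℝ X),
        ∃ T : E ≃L[ℝ] X,
          (∀ x : E, ‖T x‖ ≤ ‖S x‖ ∧ ‖S x‖ ≤ (1 + R) * ‖T x‖) ∧
          (∀ G : Submodule ℝ X, FiniteDimensional ℝ G →
            (Set.extremePoints ℝ (Metric.closedBall (0 : X) 1 ∩ (G : Set X))).Finite) ∧
          Metric.closedBall (0 : X) 1 =
            closure (convexHull ℝ (Set.extremePoints ℝ (Metric.closedBall (0 : X) 1))) := by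
  intro E _ _ _ E' _ _ S hE hdisc R hR
  have hcomp : CompleteSpace E' :=
    (completeSpace_congr (e := S.toEquiv) S.isUniformEmbedding).1 inferInstance
  have hE' : IsPolyhedral E' := hE
  obtain ⟨X, i1, i2, T, hT, hp, hg⟩ := hE'.exists_generated_of_discrete (by
    rintro f z ⟨ρ, hρ, hloc⟩
    obtain ⟨r, hr, h⟩ := hdisc f z ρ hρ hloc
    refine ⟨r, hr, ?_⟩
    rintro f' z' ⟨ρ', hρ', hloc'⟩ hne
    exact h f' z' ρ' hρ' hloc' hne) hR
  exact ⟨X, i1, i2, S.trans T, fun x => hT (S x), hp, hg⟩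

end Pool.Agent.Results.MP_a60229_an.DiscreteFacets
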